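import Pool.Agent.N513.CE.Stm
import Pool.Agent.N289.SA.Pair
import Pool.Agent.N540.SA.Main

/-!
# Project CE, part PAIRP: a residually finite group with a non-sofic transitive action whose
stabiliser is generated by finitely many elements of order 257
-/

set_option autoImplicit false

namespace Pool.Agent.N247.CE

open Pool.Agent.N289.SA
open Pool.Agent.N513.CE (RF S_PAIRP)
open Pool.Agent.W661.RC (HasT)

noncomputable section

/-- the generators of the subgroup -/
def gen (p : Fin 9 × F) : GG := ⟨l9 p.1 p.2, kk_le (k_line p.1 p.2)⟩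

theorem l9_add (n : Fin 9) (s t : F) : l9 n (s + t) = l9 n s * l9 n t := by
  unfold l9
  rw [add_smul, el_add]

theorem l9_zero (n : Fin 9) : l9 n 0 = 1 := by
  unfold l9
  rw [zero_smul, el_zero]

theorem l9_pow (n : Fin 9) (t : F) (m : ℕ) : l9 n t ^ m = l9 n (m • t) := by
  induction m with
  | zero => rw [pow_zero, zero_smul, l9_zero]
  | succ m ih => rw [pow_succ, ih, succ_nsmul, l9_add]

theorem gen_pow (p : Fin 9 × F) : gen p ^ 257 = 1 := by
  apply Subtype.ext
  show l9 p.1 p.2 ^ 257 = 1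
  rw [l9_pow, nsmul_eq_mul, show ((257 : ℕ) : F) = 0 from ZMod.natCast_self 257, zero_mul, l9_zero]

theorem closure_gen : Subgroup.closure (Set.range gen) = KK.subgroupOf GG := by
  have h1 : (Subgroup.closure (Set.range gen)).map GG.subtype = KK := by
    rw [MonoidHom.map_closure]
    unfold KK
    congr 1
    ext x
    constructor
    · rintro ⟨_, ⟨p, rfl⟩, rfl⟩
      exact ⟨p.1, p.2, rfl⟩
    · rintro ⟨n, t, rfl⟩
      exact ⟨gen (n, t), ⟨(n, t), rfl⟩, rfl⟩
  have h2 : (Subgroup.closure (Set.range gen)) =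
      ((Subgroup.closure (Set.range gen)).map GG.subtype).comap GG.subtype :=
    (Subgroup.comap_map_eq_self_of_injective GG.subtype_injective _).symm
  rw [h2, h1]
  rfl

theorem t_PAIRP : S_PAIRP := by
  classical
  refine ⟨GG, inferInstance, KK.subgroupOf GG, Finset.univ.image gen, 257, rf_GG, ?_,
    by norm_num, by norm_num, ?_, ?_, ?_⟩
  · obtain ⟨k, γ, hγ⟩ := Pool.Agent.N303.KQ.exists_free hasT_GG
    exact Group.fg_of_surjective hγ
  · intro k hk
    obtain ⟨p, -, rfl⟩ := Finset.mem_image.1 hk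
    exact gen_pow p
  · rw [Finset.coe_image, Finset.coe_univ, Set.image_univ]
    exact closure_gen
  · obtain ⟨g, hg1, k, hk1, hk2⟩ := not_norm
    refine Pool.Agent.N540.SA.not_sofic_action (MulAction.toPermHom GG (GG ⧸ KK.subgroupOf GG))
      (KK.subgroupOf GG) hasT_GG hasT_sub mm_top g hg1 k hk1 hk2
      ((1 : GG) : GG ⧸ KK.subgroupOf GG) ?_
    intro x
    show ((x * 1 : GG) : GG ⧸ KK.subgroupOf GG) = ((1 : GG) : GG ⧸ KK.subgroupOf GG) ↔ _
    rw [mul_one, eq_comm, QuotientGroup.eq, inv_one, one_mul]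

end

end Pool.Agent.N247.CE
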